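import Pool.Agent.Lib.MP_2c1b2b_gt.Interfaces

/-!
# MP_2c1b2b_gt, module U: contraction of coordinates and Šidák's lemma (helper3)
-/

set_option autoImplicit false

open MeasureTheory Set
open scoped ENNReal Pointwise BigOperators

namespace Pool.Agent.Lib.MP_2c1b2b_gt.H3

/-- The one-dimensional weight. -/
noncomputable def w1 (s : ℝ) : ℝ≥0∞ := ENNReal.ofReal (Real.exp (-(s ^ 2) / 2))

/-- The weight in the coefficient space. -/
noncomputable def wN {N : ℕ} (x : Fin N → ℝ) : ℝ≥0∞ := ENNReal.ofReal (Real.exp (-(sq x) / 2))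

theorem measurable_w1 : Measurable w1 := by
  unfold w1
  fun_prop

theorem measurable_sq {N : ℕ} : Measurable (sq : (Fin N → ℝ) → ℝ) := by
  unfold sq
  fun_prop

theorem measurable_wN {N : ℕ} : Measurable (wN : (Fin N → ℝ) → ℝ≥0∞) := by
  unfold wN
  have := measurable_sq (N := N)
  fun_prop

theorem sq_insertNth {M : ℕ} (i : Fin (M + 1)) (s : ℝ) (y : Fin M → ℝ) :
    sq (i.insertNth (α := fun _ => ℝ) s y) = s ^ 2 + sq y := by
  unfold sq
  rw [Fin.sum_univ_succAbove _ i]
  simp

theorem wN_insertNth {M : ℕ} (i : Fin (M + 1)) (s : ℝ) (y : Fin M → ℝ) :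
    wN (i.insertNth (α := fun _ => ℝ) s y) = w1 s * wN y := by
  unfold wN w1
  rw [sq_insertNth, ← ENNReal.ofReal_mul (Real.exp_nonneg _), ← Real.exp_add]
  congr 2
  ring

theorem gw_eq_lintegral {N : ℕ} {S : Set (Fin N → ℝ)} (hS : MeasurableSet S) :
    gw S = ∫⁻ x, S.indicator wN x := by
  rw [lintegral_indicator hS]
  rfl

/-- The section of a set at the value `s` of the coordinate `i`. -/
def sec {M : ℕ} (i : Fin (M + 1)) (S : Set (Fin (M + 1) → ℝ)) (s : ℝ) : Set (Fin M → ℝ) :=
  {y | i.insertNth (α := fun _ => ℝ) s y ∈ S}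

theorem measurable_insertNth {M : ℕ} (i : Fin (M + 1)) :
    Measurable (fun p : ℝ × (Fin M → ℝ) => i.insertNth (α := fun _ => ℝ) p.1 p.2) :=
  (MeasurableEquiv.piFinSuccAbove (fun _ => ℝ) i).symm.measurable

theorem measurableSet_sec {M : ℕ} (i : Fin (M + 1)) {S : Set (Fin (M + 1) → ℝ)}
    (hS : MeasurableSet S) (s : ℝ) : MeasurableSet (sec i S s) := by
  have h : Measurable (fun y : Fin M → ℝ => i.insertNth (α := fun _ => ℝ) s y) :=
    (measurable_insertNth i).comp measurable_prodMk_left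
  exact h hS

/-- Fubini: first the coordinate `i`. -/
theorem gw_fubini {M : ℕ} (i : Fin (M + 1)) {S : Set (Fin (M + 1) → ℝ)} (hS : MeasurableSet S) :
    gw S = ∫⁻ s, w1 s * gw (sec i S s) := by
  have hmp := (volume_preserving_piFinSuccAbove (fun _ : Fin (M + 1) => ℝ) i).symm
  have hm : Measurable (S.indicator wN) := measurable_wN.indicator hS
  have hm2 : Measurable (fun p : ℝ × (Fin M → ℝ) =>
      S.indicator wN (i.insertNth (α := fun _ => ℝ) p.1 p.2)) := hm.comp hmp.measurable
  have h0 : ∫⁻ x, S.indicator wN x = ∫⁻ p : ℝ × (Fin M → ℝ),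
      S.indicator wN (i.insertNth (α := fun _ => ℝ) p.1 p.2) := (hmp.lintegral_comp hm).symm
  rw [gw_eq_lintegral hS, h0, Measure.volume_eq_prod, lintegral_prod _ hm2.aemeasurable]
  apply lintegral_congr
  intro s
  rw [gw_eq_lintegral (measurableSet_sec i hS s),
    ← lintegral_const_mul _ (measurable_wN.indicator (measurableSet_sec i hS s))]
  apply lintegral_congr
  intro y
  change S.indicator wN (i.insertNth (α := fun _ => ℝ) s y) = _
  by_cases hy : i.insertNth (α := fun _ => ℝ) s y ∈ S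
  · rw [indicator_of_mem hy, indicator_of_mem (show y ∈ sec i S s from hy), wN_insertNth]
  · rw [indicator_of_notMem hy, indicator_of_notMem (show y ∉ sec i S s from hy), mul_zero]

/-- The Gaussian weight of a set is invariant under reflection. -/
theorem gw_neg {N : ℕ} {A : Set (Fin N → ℝ)} (hA : MeasurableSet A) :
    gw {x | -x ∈ A} = gw A := by
  have hA' : MeasurableSet {x : Fin N → ℝ | -x ∈ A} := measurable_neg hA
  have hmp : MeasurePreserving (fun x : Fin N → ℝ => -x) volume volume :=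
    Measure.measurePreserving_neg volume
  rw [gw_eq_lintegral hA, gw_eq_lintegral hA', ← hmp.lintegral_comp (measurable_wN.indicator hA)]
  apply lintegral_congr
  intro x
  have h1 : wN (-x) = wN x := by
    unfold wN sq
    simp
  by_cases hx : -x ∈ A
  · rw [indicator_of_mem hx, indicator_of_mem (show x ∈ {x | -x ∈ A} from hx), h1]
  · rw [indicator_of_notMem hx, indicator_of_notMem (show x ∉ {x | -x ∈ A} from hx)]

theorem sq_convex {N : ℕ} (x y : Fin N → ℝ) {l : ℝ} (h0 : 0 ≤ l) (h1 : l ≤ 1) :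
    sq (l • x + (1 - l) • y) ≤ l * sq x + (1 - l) * sq y := by
  unfold sq
  rw [Finset.mul_sum, Finset.mul_sum, ← Finset.sum_add_distrib]
  apply Finset.sum_le_sum
  intro i _
  simp only [Pi.add_apply, Pi.smul_apply, smul_eq_mul]
  nlinarith [mul_nonneg (mul_nonneg h0 (sub_nonneg.2 h1)) (sq_nonneg (x i - y i))]

theorem wN_logconcave {N : ℕ} (x y : Fin N → ℝ) {l : ℝ} (h0 : 0 ≤ l) (h1 : l ≤ 1) :
    wN x ^ l * wN y ^ (1 - l) ≤ wN (l • x + (1 - l) • y) := by
  unfold wN
  rw [ENNReal.ofReal_rpow_of_nonneg (Real.exp_nonneg _) h0,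
    ENNReal.ofReal_rpow_of_nonneg (Real.exp_nonneg _) (sub_nonneg.2 h1),
    ← ENNReal.ofReal_mul (by positivity), ← Real.exp_mul, ← Real.exp_mul, ← Real.exp_add]
  apply ENNReal.ofReal_le_ofReal
  apply Real.exp_le_exp.2
  have := sq_convex x y h0 h1
  nlinarith

theorem insertNth_comb {M : ℕ} (i : Fin (M + 1)) (a b s u : ℝ) (x y : Fin M → ℝ) :
    i.insertNth (α := fun _ => ℝ) (a * s + b * u) (a • x + b • y)
      = a • i.insertNth (α := fun _ => ℝ) s x + b • i.insertNth (α := fun _ => ℝ) u y := by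
  ext j
  refine Fin.succAboveCases i ?_ (fun j => ?_) j
  · simp
  · simp

theorem insertNth_neg {M : ℕ} (i : Fin (M + 1)) (s : ℝ) (x : Fin M → ℝ) :
    -i.insertNth (α := fun _ => ℝ) s x = i.insertNth (α := fun _ => ℝ) (-s) (-x) := by
  ext j
  refine Fin.succAboveCases i ?_ (fun j => ?_) j
  · simp
  · simp

theorem gw_sec_neg {M : ℕ} (i : Fin (M + 1)) {S : Set (Fin (M + 1) → ℝ)}
    (hS : MeasurableSet S) (hsym : ∀ x ∈ S, -x ∈ S) (s : ℝ) :
    gw (sec i S (-s)) = gw (sec i S s) := by
  rw [← gw_neg (measurableSet_sec i hS (-s))]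
  congr 1
  ext y
  simp only [sec, mem_ofPred_eq]
  constructor
  · intro h
    have := hsym _ h
    rwa [insertNth_neg, neg_neg, neg_neg] at this
  · intro h
    have := hsym _ h
    rwa [insertNth_neg] at this

/-- The sections of a symmetric convex set decrease with the distance from the origin. -/
theorem gw_sec_mono (PL : PLStatement) {M : ℕ} (i : Fin (M + 1)) {S : Set (Fin (M + 1) → ℝ)}
    (hS : MeasurableSet S) (hconv : Convex ℝ S) (hsym : ∀ x ∈ S, -x ∈ S) {s u : ℝ}
    (hus : |u| ≤ |s|) : gw (sec i S s) ≤ gw (sec i S u) := by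
  rcases hus.eq_or_lt with heq | hlt
  · rcases abs_eq_abs.1 heq with h | h
    · rw [h]
    · rw [h, gw_sec_neg i hS hsym]
  · have hs : s ≠ 0 := by
      rintro rfl
      simp only [abs_zero] at hlt
      exact absurd hlt (not_lt.2 (abs_nonneg u))
    have hs' : 0 < |s| := abs_pos.2 hs
    have hr : |u / s| < 1 := by rw [abs_div, div_lt_one hs']; exact hlt
    obtain ⟨hr1, hr2⟩ := abs_lt.1 hr
    set l : ℝ := (1 + u / s) / 2 with hl
    have hl0 : 0 < l := by rw [hl]; linarith
    have hl1 : l < 1 := by rw [hl]; linarith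
    have hu : l * s + (1 - l) * (-s) = u := by
      rw [hl]
      field_simp
      ring
    have h1 : MeasurableSet (sec i S s) := measurableSet_sec i hS s
    have h2 : MeasurableSet (sec i S (-s)) := measurableSet_sec i hS (-s)
    have h3 : MeasurableSet (sec i S u) := measurableSet_sec i hS u
    have key := PL M ((sec i S s).indicator wN) ((sec i S (-s)).indicator wN)
      ((sec i S u).indicator wN) (measurable_wN.indicator h1) (measurable_wN.indicator h2)
      (measurable_wN.indicator h3) l hl0 hl1 (by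
        intro x y
        by_cases hx : x ∈ sec i S s
        · by_cases hy : y ∈ sec i S (-s)
          · have hxy : l • x + (1 - l) • y ∈ sec i S u := by
              simp only [sec, mem_ofPred_eq] at hx hy ⊢
              rw [← hu, insertNth_comb]
              exact hconv hx hy hl0.le (by linarith) (by ring)
            rw [indicator_of_mem hx, indicator_of_mem hy, indicator_of_mem hxy]
            exact wN_logconcave x y hl0.le hl1.le
          · rw [indicator_of_notMem hy, ENNReal.zero_rpow_of_pos (by linarith), mul_zero]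
            exact zero_le
        · rw [indicator_of_notMem hx, ENNReal.zero_rpow_of_pos hl0, zero_mul]
          exact zero_le)
    rw [← gw_eq_lintegral h1, ← gw_eq_lintegral h2, ← gw_eq_lintegral h3,
      gw_sec_neg i hS hsym, ← ENNReal.rpow_add_of_nonneg _ _ hl0.le (by linarith)] at key
    simpa using key

/-- Contraction of one coordinate. -/
theorem contract_one (PL : PLStatement) {N : ℕ} (i : Fin N) {S : Set (Fin N → ℝ)}
    (hS : MeasurableSet S) (hconv : Convex ℝ S) (hsym : ∀ x ∈ S, -x ∈ S) {k : ℝ}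
    (hk : |k| ≤ 1) : gw S ≤ gw {x | Function.update x i (k * x i) ∈ S} := by
  obtain ⟨M, rfl⟩ : ∃ M, N = M + 1 := ⟨N - 1, by have := i.pos; omega⟩
  have hm : Measurable (fun x : Fin (M + 1) → ℝ => Function.update x i (k * x i)) := by
    rw [measurable_pi_iff]
    intro j
    by_cases hj : j = i
    · subst hj
      simp only [Function.update_self]
      fun_prop
    · simp only [Function.update_of_ne hj]
      fun_prop
  change gw S ≤ gw ((fun x : Fin (M + 1) → ℝ => Function.update x i (k * x i)) ⁻¹' S)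
  rw [gw_fubini i hS, gw_fubini i (hm hS)]
  apply lintegral_mono
  intro s
  apply mul_le_mul_right
  have h : sec i ((fun x : Fin (M + 1) → ℝ => Function.update x i (k * x i)) ⁻¹' S) s
      = sec i S (k * s) := by
    ext y
    simp only [sec, mem_ofPred_eq, mem_preimage, Fin.insertNth_apply_same]
    have : Function.update (i.insertNth (α := fun _ => ℝ) s y) i (k * s)
        = i.insertNth (α := fun _ => ℝ) (k * s) y := by
      ext j
      refine Fin.succAboveCases i ?_ (fun j => ?_) j
      · simp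
      · simp [Fin.succAbove_ne]
    rw [this]
  rw [h]
  apply gw_sec_mono PL i hS hconv hsym
  rw [abs_mul]
  exact mul_le_of_le_one_left (abs_nonneg s) hk

/-- Contraction of the coordinates in a finite set. -/
theorem contract_finset (PL : PLStatement) {N : ℕ} {S : Set (Fin N → ℝ)}
    (hS : MeasurableSet S) (hconv : Convex ℝ S) (hsym : ∀ x ∈ S, -x ∈ S) (k : Fin N → ℝ)
    (hk : ∀ i, |k i| ≤ 1) (T : Finset (Fin N)) :
    gw S ≤ gw {x | (fun i => if i ∈ T then k i * x i else x i) ∈ S} := by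
  induction T using Finset.induction_on with
  | empty =>
    refine le_of_eq (congrArg gw ?_)
    ext x
    simp
  | insert i T hi ih =>
    refine ih.trans ?_
    set L : (Fin N → ℝ) → (Fin N → ℝ) := fun x i => if i ∈ T then k i * x i else x i with hL
    have hLadd : ∀ (a b : ℝ) (x y : Fin N → ℝ), L (a • x + b • y) = a • L x + b • L y := by
      intro a b x y
      ext j
      simp only [hL, Pi.add_apply, Pi.smul_apply, smul_eq_mul]
      split_ifs
      · ring
      · ring
    have hLneg : ∀ x, L (-x) = -L x := by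
      intro x
      ext j
      simp only [hL, Pi.neg_apply]
      split_ifs
      · ring
      · ring
    have hLm : Measurable L := by
      rw [measurable_pi_iff]
      intro j
      simp only [hL]
      split_ifs
      · fun_prop
      · fun_prop
    have h1 : MeasurableSet (L ⁻¹' S) := hLm hS
    have h2 : Convex ℝ (L ⁻¹' S) := by
      intro x hx y hy a b ha hb hab
      change L (a • x + b • y) ∈ S
      rw [hLadd]
      exact hconv hx hy ha hb hab
    have h3 : ∀ x ∈ L ⁻¹' S, -x ∈ L ⁻¹' S := by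
      intro x hx
      change L (-x) ∈ S
      rw [hLneg]
      exact hsym _ hx
    refine (contract_one PL i h1 h2 h3 (hk i)).trans (le_of_eq ?_)
    congr 1
    ext x
    change L (Function.update x i (k i * x i)) ∈ S ↔ _ ∈ S
    have : L (Function.update x i (k i * x i))
        = fun j => if j ∈ insert i T then k j * x j else x j := by
      ext j
      simp only [hL]
      by_cases hji : j = i
      · subst hji
        simp [hi]
      · simp [hji]
    rw [this]

theorem contractStatement (PL : PLStatement) : ContractStatement := by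
  intro N S hS hconv hsym k hk
  simpa using contract_finset PL hS hconv hsym k hk Finset.univ

theorem lintegral_w1 : ∫⁻ s, w1 s = ENNReal.ofReal (Real.sqrt (2 * Real.pi)) := by
  have h1 : ∀ s : ℝ, -(s ^ 2) / 2 = -(1 / 2) * s ^ 2 := fun s => by ring
  unfold w1
  simp only [h1]
  rw [← ofReal_integral_eq_lintegral_ofReal (integrable_exp_neg_mul_sq (by norm_num))
    (Filter.Eventually.of_forall fun s => (Real.exp_pos _).le), integral_gaussian]
  congr 2
  ring

theorem lintegral_w1_in : ENNReal.ofReal (7 / 8) ≤ ∫⁻ s in Icc (-(1 / 2) : ℝ) (1 / 2), w1 s := by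
  have h1 : ∫⁻ _ in Icc (-(1 / 2) : ℝ) (1 / 2), ENNReal.ofReal (7 / 8)
      ≤ ∫⁻ s in Icc (-(1 / 2) : ℝ) (1 / 2), w1 s := by
    apply setLIntegral_mono measurable_w1
    intro s hs
    unfold w1
    apply ENNReal.ofReal_le_ofReal
    have h2 : s ^ 2 ≤ 1 / 4 := by nlinarith [hs.1, hs.2]
    have h3 : -(s ^ 2) / 2 + 1 ≤ Real.exp (-(s ^ 2) / 2) := Real.add_one_le_exp _
    linarith
  refine le_trans (le_of_eq ?_) h1
  rw [setLIntegral_const, Real.volume_Icc]
  norm_num

theorem w1_total_le : ∫⁻ s, w1 s ≤ 3 * ∫⁻ s in Icc (-(1 / 2) : ℝ) (1 / 2), w1 s := by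
  rw [lintegral_w1]
  refine le_trans ?_ (mul_le_mul_right lintegral_w1_in 3)
  have h3 : (3 : ℝ≥0∞) = ENNReal.ofReal 3 := by norm_num
  rw [h3, ← ENNReal.ofReal_mul (by norm_num)]
  apply ENNReal.ofReal_le_ofReal
  rw [Real.sqrt_le_left (by norm_num)]
  have := Real.pi_lt_d2
  nlinarith

/-- Šidák's lemma for one coordinate. -/
theorem sidak_one (PL : PLStatement) {N : ℕ} (i : Fin N) {S : Set (Fin N → ℝ)}
    (hS : MeasurableSet S) (hconv : Convex ℝ S) (hsym : ∀ x ∈ S, -x ∈ S) :
    gw S ≤ 3 * gw (S ∩ {x | |x i| ≤ 1 / 2}) := by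
  obtain ⟨M, rfl⟩ : ∃ M, N = M + 1 := ⟨N - 1, by have := i.pos; omega⟩
  have hT : MeasurableSet {x : Fin (M + 1) → ℝ | |x i| ≤ 1 / 2} :=
    measurableSet_le (by fun_prop) measurable_const
  have hI : MeasurableSet (Icc (-(1 / 2) : ℝ) (1 / 2)) := measurableSet_Icc
  set p : ℝ → ℝ≥0∞ := fun s => gw (sec i S s) with hp
  set A : ℝ≥0∞ := ∫⁻ s in Icc (-(1 / 2) : ℝ) (1 / 2), w1 s with hA
  set B : ℝ≥0∞ := ∫⁻ s in (Icc (-(1 / 2) : ℝ) (1 / 2))ᶜ, w1 s with hB
  -- the right-hand side
  have h1 : gw (S ∩ {x | |x i| ≤ 1 / 2}) = ∫⁻ s in Icc (-(1 / 2) : ℝ) (1 / 2), w1 s * p s := by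
    rw [gw_fubini i (hS.inter hT), ← lintegral_indicator hI]
    apply lintegral_congr
    intro s
    by_cases hs : s ∈ Icc (-(1 / 2) : ℝ) (1 / 2)
    · rw [indicator_of_mem hs, hp]
      simp only
      congr 2
      ext y
      simp only [sec, mem_ofPred_eq, mem_inter_iff, Fin.insertNth_apply_same]
      exact ⟨fun h => h.1, fun h => ⟨h, abs_le.2 hs⟩⟩
    · rw [indicator_of_notMem hs]
      have : sec i (S ∩ {x | |x i| ≤ 1 / 2}) s = ∅ := by
        ext y
        simp only [sec, mem_ofPred_eq, mem_inter_iff, Fin.insertNth_apply_same,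
          mem_empty_iff_false, iff_false, not_and]
        intro _ h
        exact hs (abs_le.1 h)
      rw [this]
      simp [gw]
  have h2 : gw S = (∫⁻ s in Icc (-(1 / 2) : ℝ) (1 / 2), w1 s * p s)
      + ∫⁻ s in (Icc (-(1 / 2) : ℝ) (1 / 2))ᶜ, w1 s * p s := by
    rw [gw_fubini i hS, lintegral_add_compl _ hI]
  have h3 : A * p (1 / 2) ≤ ∫⁻ s in Icc (-(1 / 2) : ℝ) (1 / 2), w1 s * p s := by
    rw [hA, ← lintegral_mul_const _ measurable_w1]
    apply lintegral_mono_ae
    filter_upwards [ae_restrict_mem hI] with s hs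
    apply mul_le_mul_right
    apply gw_sec_mono PL i hS hconv hsym
    rw [abs_of_pos (show (0 : ℝ) < 1 / 2 by norm_num)]
    exact abs_le.2 hs
  have h4 : ∫⁻ s in (Icc (-(1 / 2) : ℝ) (1 / 2))ᶜ, w1 s * p s ≤ B * p (1 / 2) := by
    rw [hB, ← lintegral_mul_const _ measurable_w1]
    apply lintegral_mono_ae
    filter_upwards [ae_restrict_mem hI.compl] with s hs
    apply mul_le_mul_right
    apply gw_sec_mono PL i hS hconv hsym
    rw [abs_of_pos (show (0 : ℝ) < 1 / 2 by norm_num)]
    by_contra hlt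
    exact hs (abs_le.1 (not_le.1 hlt).le)
  have h5 : A + B ≤ 3 * A := by
    rw [hA, hB, lintegral_add_compl _ hI]
    exact w1_total_le
  have hAfin : A ≠ ∞ := by
    have : A ≤ ∫⁻ s, w1 s := setLIntegral_le_lintegral _ _
    rw [lintegral_w1] at this
    exact ne_top_of_le_ne_top ENNReal.ofReal_ne_top this
  have h6 : B ≤ 2 * A := by
    have : A + B ≤ A + 2 * A := by
      calc A + B ≤ 3 * A := h5
        _ = A + 2 * A := by ring
    exact (ENNReal.add_le_add_iff_left hAfin).1 this
  rw [h1, h2]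
  calc (∫⁻ s in Icc (-(1 / 2) : ℝ) (1 / 2), w1 s * p s)
        + ∫⁻ s in (Icc (-(1 / 2) : ℝ) (1 / 2))ᶜ, w1 s * p s
      ≤ (∫⁻ s in Icc (-(1 / 2) : ℝ) (1 / 2), w1 s * p s) + B * p (1 / 2) := by gcongr
    _ ≤ (∫⁻ s in Icc (-(1 / 2) : ℝ) (1 / 2), w1 s * p s) + 2 * A * p (1 / 2) := by gcongr
    _ = (∫⁻ s in Icc (-(1 / 2) : ℝ) (1 / 2), w1 s * p s) + 2 * (A * p (1 / 2)) := by ring
    _ ≤ (∫⁻ s in Icc (-(1 / 2) : ℝ) (1 / 2), w1 s * p s)
        + 2 * ∫⁻ s in Icc (-(1 / 2) : ℝ) (1 / 2), w1 s * p s := by gcongr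
    _ = 3 * ∫⁻ s in Icc (-(1 / 2) : ℝ) (1 / 2), w1 s * p s := by ring

theorem sidakStatement (PL : PLStatement) : SidakStatement := by
  intro N S hS hconv hsym I
  induction I using Finset.induction_on with
  | empty => simp
  | insert i I hi ih =>
    set R : Set (Fin N → ℝ) := S ∩ {x | ∀ j ∈ I, |x j| ≤ 1 / 2} with hR
    have hRm : MeasurableSet R := by
      apply hS.inter
      have : {x : Fin N → ℝ | ∀ j ∈ I, |x j| ≤ 1 / 2} = ⋂ j ∈ I, {x | |x j| ≤ 1 / 2} := by
        ext x
        simp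
      rw [this]
      exact Finset.measurableSet_biInter _ fun j _ =>
        measurableSet_le (by fun_prop) measurable_const
    have hRc : Convex ℝ R := by
      apply hconv.inter
      intro x hx y hy a b ha hb hab j hj
      simp only [Pi.add_apply, Pi.smul_apply, smul_eq_mul]
      have h1 := hx j hj
      have h2 := hy j hj
      calc |a * x j + b * y j| ≤ |a * x j| + |b * y j| := abs_add_le _ _
        _ = a * |x j| + b * |y j| := by rw [abs_mul, abs_mul, abs_of_nonneg ha, abs_of_nonneg hb]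
        _ ≤ a * (1 / 2) + b * (1 / 2) := by gcongr
        _ = 1 / 2 := by rw [← add_mul, hab, one_mul]
    have hRs : ∀ x ∈ R, -x ∈ R := by
      intro x hx
      refine ⟨hsym _ hx.1, fun j hj => ?_⟩
      rw [Pi.neg_apply, abs_neg]
      exact hx.2 j hj
    have h1 := sidak_one PL i hRm hRc hRs
    have h2 : R ∩ {x | |x i| ≤ 1 / 2} = S ∩ {x | ∀ j ∈ insert i I, |x j| ≤ 1 / 2} := by
      ext x
      simp only [hR, mem_inter_iff, mem_ofPred_eq, Finset.mem_insert, forall_eq_or_imp]
      tauto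
    rw [h2] at h1
    rw [Finset.card_insert_of_notMem hi, pow_succ, mul_assoc]
    exact ih.trans (mul_le_mul_right h1 _)

end Pool.Agent.Lib.MP_2c1b2b_gt.H3
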