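import Pool.Agent.Lib.MP_2c1b2b_gt.H3.U
import Pool.Agent.Lib.MP_2c1b2b_gt.H32.PLS

/-!
# MP_2c1b2b_gt, module U, unconditional (helper3)
-/

set_option autoImplicit false

namespace Pool.Agent.Lib.MP_2c1b2b_gt.H3

theorem contract : ContractStatement := contractStatement H32.plStatement

theorem sidak : SidakStatement := sidakStatement H32.plStatement

end Pool.Agent.Lib.MP_2c1b2b_gt.H3
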